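import Pool.Agent.R945.CU.J

/-!
# Cumulants of cosine sums along the integer parts of powers of a non-Perron number

For the non-Perron number `√φ` (`φ` the golden ratio) the sixth cumulant of
`∑_{k ≤ n} cos(2π ⌊√φ ^ k⌋ ω)` grows faster than linearly (in fact `κ₆ ≥ c n²`), so the statement
in question is false.
-/

namespace Pool.Agent.Results.MP_e4803a_nt.Full

open Filter Topology

/-- `η` is a Perron number: a real algebraic integer `> 1` all of whose other conjugates (complex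
roots of the minimal polynomial over `ℚ`) have absolute value less than `η`. -/
def IsPerron (η : ℝ) : Prop :=
  1 < η ∧ IsIntegral ℤ η ∧
    ∀ z : ℂ, Polynomial.aeval z (minpoly ℚ η) = 0 → z ≠ (η : ℂ) → ‖z‖ < η

/-- `S_n(ω) = ∑_{k=1}^n cos(2π a_k ω)` with `a_k = ⌊η^k⌋`. -/
noncomputable def S (η : ℝ) (n : ℕ) (ω : ℝ) : ℝ :=
  ∑ k ∈ Finset.Icc 1 n, Real.cos (2 * Real.pi * (⌊η ^ k⌋₊ : ℝ) * ω)

/-- The `m`-th cumulant of a random variable on `[0,1]` with Lebesgue measure. -/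
noncomputable def cumulant (m : ℕ) (X : ℝ → ℝ) : ℝ :=
  iteratedDeriv m (fun t : ℝ => Real.log (∫ ω in (0:ℝ)..1, Real.exp (t * X ω))) 0

/-- The numbers `κ̃_m`, the derivatives at `0` of `log I₀`. -/
noncomputable def arcsineCumulant (m : ℕ) : ℝ :=
  iteratedDeriv m (fun t : ℝ => Real.log (∑' j : ℕ, (t / 2) ^ (2 * j) / (j.factorial : ℝ) ^ 2)) 0

/-- The assertion of Q1 for one `η`: all limits `c_m = lim κ_m(S_n)/n` (`m ≥ 1`) exist and are
finite, and `c_m ≠ κ̃_m` for at least one `m ≥ 1`. -/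
def Assertion (η : ℝ) : Prop :=
  ∃ c : ℕ → ℝ, (∀ m, 1 ≤ m → Tendsto (fun n : ℕ => cumulant m (S η n) / (n : ℝ)) atTop (𝓝 (c m))) ∧
    ∃ m, 1 ≤ m ∧ c m ≠ arcsineCumulant m

/-- For `η = √φ`, an algebraic number `> 1` that is not a Perron number, `κ₆(S_n)/n → +∞`. Hence
the statement of Q1 (for all non-Perron algebraic `η > 1`) is false. -/
theorem result :
    (1 < √Real.goldenRatio ∧ IsAlgebraic ℚ (√Real.goldenRatio) ∧ ¬ IsPerron (√Real.goldenRatio) ∧
      Tendsto (fun n : ℕ => cumulant 6 (S (√Real.goldenRatio) n) / (n : ℝ)) atTop atTop) ∧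
    ¬ (∀ η : ℝ, 1 < η → IsAlgebraic ℚ η → ¬ IsPerron η → Assertion η) := by
  have hS : ∀ n : ℕ, S (√Real.goldenRatio) n
      = Pool.Agent.R945.CU.cosSum Pool.Agent.R945.CU.seq n := by
    intro n
    funext ω
    unfold S Pool.Agent.R945.CU.cosSum Pool.Agent.R945.CU.seq Pool.Agent.R945.CU.eta
    push_cast
    rfl
  have hT : Tendsto (fun n : ℕ => cumulant 6 (S (√Real.goldenRatio) n) / (n : ℝ)) atTop atTop := by
    have h := Pool.Agent.R945.CU.tends
    simp_rw [hS]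
    exact h
  have hP : ¬ IsPerron (√Real.goldenRatio) := by
    rintro ⟨h1, _, h3⟩
    have hne : (-(√Real.goldenRatio : ℝ) : ℂ) ≠ ((√Real.goldenRatio : ℝ) : ℂ) := by
      intro h
      have h' : (-(√Real.goldenRatio) : ℝ) = √Real.goldenRatio := by exact_mod_cast h
      linarith
    have h4 := h3 (-(√Real.goldenRatio : ℝ) : ℂ) Pool.Agent.R945.CU.neg_eta_root hne
    rw [norm_neg, Complex.norm_real, Real.norm_of_nonneg (by linarith)] at h4
    exact lt_irrefl _ h4
  refine ⟨⟨Pool.Agent.R945.CU.one_lt_eta, Pool.Agent.R945.CU.eta_algebraic, hP, hT⟩, ?_⟩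
  intro hall
  obtain ⟨c, hc, _⟩ := hall _ Pool.Agent.R945.CU.one_lt_eta Pool.Agent.R945.CU.eta_algebraic hP
  exact not_tendsto_nhds_of_tendsto_atTop hT (c 6) (hc 6 (by norm_num))

end Pool.Agent.Results.MP_e4803a_nt.Full
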